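import Mathlib

/-!
Definitions for MP_050c6b_co and the substitution of a 3-pole for every vertex of a cubic graph.
-/

namespace Pool.Agent.H7.P3

/-- `G` contains `k` pairwise vertex-disjoint paths on three vertices. -/
def HasPaths {V : Type} (G : SimpleGraph V) (k : ℕ) : Prop :=
  ∃ g : Fin k → Fin 3 → V,
    Function.Injective (fun p : Fin k × Fin 3 => g p.1 p.2) ∧
    ∀ i : Fin k, G.Adj (g i 0) (g i 1) ∧ G.Adj (g i 1) (g i 2)

/-- `G` is a finite 3-connected cubic graph: every vertex has exactly three neighbours, there are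
at least four vertices, and the graph stays connected after deleting any at most two vertices. -/
structure CubicThreeConnected {V : Type} (G : SimpleGraph V) : Prop where
  finite : Finite V
  cubic : ∀ v : V, (G.neighborSet v).ncard = 3
  four_le : 4 ≤ Nat.card V
  conn : ∀ S : Set V, S.ncard ≤ 2 → (G.induce Sᶜ).Connected

lemma HasPaths.mono {V : Type} {G : SimpleGraph V} {k l : ℕ} (h : HasPaths G k) (hl : l ≤ k) :
    HasPaths G l := by
  obtain ⟨g, hg, hadj⟩ := h
  refine ⟨fun i => g (Fin.castLE hl i), ?_, fun i => hadj _⟩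
  rintro ⟨i, j⟩ ⟨i', j'⟩ he
  have := hg (a₁ := (Fin.castLE hl i, j)) (a₂ := (Fin.castLE hl i', j')) he
  simp only [Prod.mk.injEq, Fin.castLE_inj] at this
  exact Prod.ext this.1 this.2

lemma HasPaths.of_fintype {V : Type} {G : SimpleGraph V} {ι : Type} [Fintype ι]
    (g : ι → Fin 3 → V) (hg : Function.Injective (fun p : ι × Fin 3 => g p.1 p.2))
    (hadj : ∀ i, G.Adj (g i 0) (g i 1) ∧ G.Adj (g i 1) (g i 2)) :
    HasPaths G (Fintype.card ι) := by
  let e := (Fintype.equivFin ι).symm
  refine ⟨fun i => g (e i), ?_, fun i => hadj _⟩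
  rintro ⟨i, j⟩ ⟨i', j'⟩ he
  have := hg (a₁ := (e i, j)) (a₂ := (e i', j')) he
  simp only [Prod.mk.injEq, EmbeddingLike.apply_eq_iff_eq] at this
  exact Prod.ext this.1 this.2

variable {V W : Type}

/-- Every vertex of `H` is replaced by a copy of `G - v`; the edge `w w'` of `H` joins the vertex
`port w w'` of the copy of `w` to the vertex `port w' w` of the copy of `w'`. -/
def substGraph (G : SimpleGraph V) (v : V) (H : SimpleGraph W) (port : W → W → V) :
    SimpleGraph (W × {x : V // x ≠ v}) where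
  Adj a b := (a.1 = b.1 ∧ G.Adj a.2 b.2) ∨
    (H.Adj a.1 b.1 ∧ (a.2 : V) = port a.1 b.1 ∧ (b.2 : V) = port b.1 a.1)
  symm := ⟨by
    rintro a b (⟨h1, h2⟩ | ⟨h1, h2, h3⟩)
    · exact Or.inl ⟨h1.symm, h2.symm⟩
    · exact Or.inr ⟨h1.symm, h3, h2⟩⟩
  loopless := ⟨by
    rintro a (⟨_, h2⟩ | ⟨h1, _⟩)
    · exact G.loopless.irrefl _ h2
    · exact H.loopless.irrefl _ h1⟩

/-- `port w` restricts to a bijection from the neighbours of `w` to the neighbours of `v`. -/
structure IsPort (G : SimpleGraph V) (v : V) (H : SimpleGraph W) (port : W → W → V) : Prop where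
  mem : ∀ w w', H.Adj w w' → G.Adj v (port w w')
  inj : ∀ w a b, H.Adj w a → H.Adj w b → port w a = port w b → a = b
  surj : ∀ w x, G.Adj v x → ∃ w', H.Adj w w' ∧ port w w' = x

lemma exists_isPort {G : SimpleGraph V} (hG : CubicThreeConnected G) (v : V)
    {H : SimpleGraph W} (hH : CubicThreeConnected H) : ∃ port : W → W → V, IsPort G v H port := by
  classical
  have hfV := hG.finite
  have hfW := hH.finite
  have h : ∀ w : W, Nonempty (H.neighborSet w ≃ G.neighborSet v) := by
    intro w
    have h1 : Nat.card (H.neighborSet w) = Nat.card (G.neighborSet v) := by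
      rw [Nat.card_coe_set_eq, Nat.card_coe_set_eq, hG.cubic, hH.cubic]
    exact Finite.card_eq.1 h1
  have e : ∀ w : W, H.neighborSet w ≃ G.neighborSet v := fun w => (h w).some
  refine ⟨fun w w' => if hw : H.Adj w w' then (e w ⟨w', hw⟩ : V) else v, ?_, ?_, ?_⟩
  · intro w w' hw
    simp only [hw, dif_pos]
    exact (e w ⟨w', hw⟩).2
  · intro w a b ha hb hab
    simp only [ha, hb, dif_pos] at hab
    have := (e w).injective (Subtype.ext hab)
    exact congrArg Subtype.val this
  · intro w x hx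
    refine ⟨((e w).symm ⟨x, hx⟩ : H.neighborSet w), ((e w).symm ⟨x, hx⟩).2, ?_⟩
    have hadj : H.Adj w ((e w).symm ⟨x, hx⟩ : H.neighborSet w) := ((e w).symm ⟨x, hx⟩).2
    simp only [hadj, dif_pos]
    have : (⟨((e w).symm ⟨x, hx⟩ : H.neighborSet w), hadj⟩ : H.neighborSet w) =
        (e w).symm ⟨x, hx⟩ := rfl
    rw [this, Equiv.apply_symm_apply]

end Pool.Agent.H7.P3
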