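import Mathlib

/-!
Claim A (component version) for symmetric relations with loops, all closed pairs having a
midpoint, and no induced path on four vertices.  Direct induction, no structure theorem.
-/

namespace Pool.Agent.H7.P3

variable {V : Type*} {A : V → V → Prop} {D : Set V}

/-- all closed pairs inside `D` have a midpoint inside `D` -/
def Pairs (A : V → V → Prop) (D : Set V) : Prop :=
  ∀ u ∈ D, ∀ v ∈ D, (A u u ↔ A v v) → ¬ (A u v ↔ A u u) →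
    ∃ g ∈ D, ¬ (A g g ↔ A u u) ∧ (A g u ↔ A g g) ∧ (A g v ↔ A g g) ∧
      ∀ x, (A u x ↔ A v x) → (A g x ↔ A u x)

/-- the induced path `a - b - c - d` -/
structure P4 (A : V → V → Prop) (a b c d : V) : Prop where
  ab : A a b
  bc : A b c
  cd : A c d
  ac : ¬ A a c
  bd : ¬ A b d
  ad : ¬ A a d

/-- no induced path on four vertices inside `D` -/
def NoP4 (A : V → V → Prop) (D : Set V) : Prop :=
  ∀ a ∈ D, ∀ b ∈ D, ∀ c ∈ D, ∀ d ∈ D, ¬ P4 A a b c d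

/-- every vertex of `D` with a neighbour in `D` lies in `N(f)`, `f` a looped vertex whose
neighbourhood in `D` is closed under adjacency -/
def CA (A : V → V → Prop) (D : Set V) : Prop :=
  ∀ x ∈ D, (∃ y ∈ D, A x y) →
    ∃ f ∈ D, A f f ∧ A f x ∧ ∀ y ∈ D, ∀ z ∈ D, A f y → A y z → A f z

theorem NoP4.mono {D E : Set V} (h : NoP4 A D) (hE : E ⊆ D) : NoP4 A E :=
  fun a ha b hb c hc d hd => h a (hE ha) b (hE hb) c (hE hc) d (hE hd)

theorem Pairs.zero (hP : Pairs A D) {u v : V} (hu : u ∈ D) (hv : v ∈ D) (huu : ¬ A u u)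
    (hvv : ¬ A v v) (huv : A u v) :
    ∃ g ∈ D, A g g ∧ A g u ∧ A g v ∧ ∀ x, (A u x ↔ A v x) → (A g x ↔ A u x) := by
  obtain ⟨g, hg, h1, h2, h3, h4⟩ := hP u hu v hv (by tauto) (by tauto)
  exact ⟨g, hg, by tauto, by tauto, by tauto, h4⟩

theorem Pairs.one (hP : Pairs A D) {u v : V} (hu : u ∈ D) (hv : v ∈ D) (huu : A u u)
    (hvv : A v v) (huv : ¬ A u v) :
    ∃ g ∈ D, ¬ A g g ∧ ¬ A g u ∧ ¬ A g v ∧ ∀ x, (A u x ↔ A v x) → (A g x ↔ A u x) := by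
  obtain ⟨g, hg, h1, h2, h3, h4⟩ := hP u hu v hv (by tauto) (by tauto)
  exact ⟨g, hg, by tauto, by tauto, by tauto, h4⟩

theorem Pairs.pos (hs : ∀ x y, A x y → A y x) (hP : Pairs A D) (w : V) :
    Pairs A {y | y ∈ D ∧ A w y} := by
  rintro u ⟨hu, hwu⟩ v ⟨hv, hwv⟩ h1 h2
  obtain ⟨g, hg, h3, h4, h5, h6⟩ := hP u hu v hv h1 h2
  refine ⟨g, ⟨hg, ?_⟩, h3, h4, h5, h6⟩
  exact hs _ _ ((h6 w ⟨fun _ => hs _ _ hwv, fun _ => hs _ _ hwu⟩).2 (hs _ _ hwu))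

theorem Pairs.neg (hs : ∀ x y, A x y → A y x) (hP : Pairs A D) (w : V) :
    Pairs A {y | y ∈ D ∧ ¬ A w y} := by
  rintro u ⟨hu, hwu⟩ v ⟨hv, hwv⟩ h1 h2
  obtain ⟨g, hg, h3, h4, h5, h6⟩ := hP u hu v hv h1 h2
  refine ⟨g, ⟨hg, fun h => ?_⟩, h3, h4, h5, h6⟩
  have hu' : ¬ A u w := fun h => hwu (hs _ _ h)
  have hv' : ¬ A v w := fun h => hwv (hs _ _ h)
  exact hu' ((h6 w ⟨fun h => absurd h hu', fun h => absurd h hv'⟩).1 (hs _ _ h))

/-- (IF) -/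
theorem isoFull (hs : ∀ x y, A x y → A y x) {E : Set V} (hP : Pairs A E) (hC : CA A E)
    (hne : E.Nonempty) :
    (∃ x ∈ E, ∀ y ∈ E, ¬ A x y) ∨ (∃ f ∈ E, ∀ y ∈ E, A f y) := by
  by_contra h
  push Not at h
  obtain ⟨h1, h2⟩ := h
  obtain ⟨x, hx⟩ := hne
  obtain ⟨f, hf, hff, hfx, hcl⟩ := hC x hx (h1 x hx)
  obtain ⟨x', hx', hn⟩ := h2 f hf
  obtain ⟨f', hf', hff', hfx', hcl'⟩ := hC x' hx' (h1 x' hx')
  have hnf : ¬ A f f' := fun h => hn (hcl f' hf' x' hx' h hfx')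
  obtain ⟨g, hg, hgg, hgf, hgf', hb⟩ := hP.one hf hf' hff hff' hnf
  obtain ⟨y, hy, hgy⟩ := h1 g hg
  by_cases h3 : A f y
  · exact hgf (hs _ _ (hcl y hy g hg h3 (hs _ _ hgy)))
  · by_cases h4 : A f' y
    · exact hgf' (hs _ _ (hcl' y hy g hg h4 (hs _ _ hgy)))
    · exact h3 ((hb y ⟨fun h => absurd h h3, fun h => absurd h h4⟩).1 hgy)

/-- (1) -/
theorem up (hs : ∀ x y, A x y → A y x) (hP : Pairs A D) {w : V} (hw : w ∈ D) (hww : ¬ A w w)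
    (hn : ∃ y ∈ D, A w y) (hC : CA A {y | y ∈ D ∧ A w y}) :
    ∃ q ∈ D, A q q ∧ A q w ∧ ∀ y ∈ D, A w y → A q y := by
  obtain ⟨y, hy, hwy⟩ := hn
  rcases isoFull hs (hP.pos hs w) hC ⟨y, hy, hwy⟩ with ⟨x, ⟨hx, hwx⟩, hiso⟩ | ⟨f, ⟨hf, hwf⟩, hfull⟩
  · exfalso
    have hxx : ¬ A x x := hiso x ⟨hx, hwx⟩
    obtain ⟨g, hg, hgg, hgw, hgx, _⟩ := hP.zero hw hx hww hxx hwx
    exact hiso g ⟨hg, hs _ _ hgw⟩ (hs _ _ hgx)
  · exact ⟨f, hf, hfull f ⟨hf, hwf⟩, hs _ _ hwf, fun y hy hwy => hfull y ⟨hy, hwy⟩⟩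

/-- a vertex of `S` whose neighbourhood in `D` has maximal size -/
theorem exists_max [Finite V] (D S : Set V) (hS : S.Nonempty) :
    ∃ f ∈ S, ∀ q ∈ S, (∀ y ∈ D, A f y → A q y) → ∀ y ∈ D, A q y → A f y := by
  obtain ⟨f, hf, hmax⟩ := Set.exists_max_image S
    (fun f => ({y | y ∈ D ∧ A f y} : Set V).ncard) (Set.toFinite S) hS
  refine ⟨f, hf, fun q hq hsub y hy hqy => ?_⟩
  have h1 : ({y | y ∈ D ∧ A f y} : Set V) ⊆ {y | y ∈ D ∧ A q y} :=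
    fun y hy => ⟨hy.1, hsub y hy.1 hy.2⟩
  have h2 := Set.eq_of_subset_of_ncard_le h1 (hmax q hq) (Set.toFinite _)
  have h3 : y ∈ ({y | y ∈ D ∧ A q y} : Set V) := ⟨hy, hqy⟩
  rw [← h2] at h3
  exact h3.2

/-- CLAIM A -/
theorem claimA [Finite V] (hs : ∀ x y, A x y → A y x) :
    ∀ (n : ℕ) (D : Set V), D.ncard ≤ n → Pairs A D → NoP4 A D → CA A D := by
  intro n
  induction n with
  | zero =>
    intro D hD _ _ x hx
    have : D = ∅ := by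
      have h0 : D.ncard = 0 := Nat.le_zero.1 hD
      rwa [Set.ncard_eq_zero (Set.toFinite D)] at h0
    rw [this] at hx
    exact absurd hx (Set.notMem_empty x)
  | succ n ih =>
    intro D hD hP hN x hx hxn
    have small : ∀ E : Set V, E ⊆ D → ∀ t ∈ D, t ∉ E → E.ncard ≤ n := by
      intro E hE t ht htE
      have : E ⊂ D := ⟨hE, fun h => htE (h ht)⟩
      have := Set.ncard_lt_ncard this (Set.toFinite D)
      omega
    have upD : ∀ w ∈ D, ¬ A w w → (∃ y ∈ D, A w y) →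
        ∃ q ∈ D, A q q ∧ A q w ∧ ∀ y ∈ D, A w y → A q y := by
      intro w hw hww hn
      refine up hs hP hw hww hn (ih _ (small _ (fun y hy => hy.1) w hw (fun h => hww h.2))
        (hP.pos hs w) (hN.mono fun y hy => hy.1))
    obtain ⟨y0, hy0, hxy0⟩ := hxn
    obtain ⟨f, ⟨hf, hfx⟩, hmax0⟩ := exists_max (A := A) D {f | f ∈ D ∧ A f x}
      ⟨y0, hy0, hs _ _ hxy0⟩
    have hmax : ∀ q ∈ D, (∀ y ∈ D, A f y → A q y) → ∀ y ∈ D, A q y → A f y :=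
      fun q hq h => hmax0 q ⟨hq, h x hx hfx⟩ h
    have hff : A f f := by
      by_contra hff
      obtain ⟨q, hq, hqq, hqf, hsub⟩ := upD f hf hff ⟨x, hx, hfx⟩
      exact hff (hmax q hq hsub f hf hqf)
    -- (S)
    have S : ∀ g ∈ D, ¬ A f g → ¬ A g g → (∀ y ∈ D, ¬ A f y → ¬ A g y) →
        (∃ y ∈ D, A g y) → False := by
      intro g hg hfg hgg hiso hn
      obtain ⟨q, hq, hqq, hqg, hsub⟩ := upD g hg hgg hn
      have hfq : A f q := by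
        by_contra hfq
        exact hiso q hq hfq (hs _ _ hqg)
      have hex : ∃ a ∈ D, A f a ∧ ¬ A q a := by
        by_contra hcon
        push Not at hcon
        exact hfg (hmax q hq hcon g hg hqg)
      obtain ⟨a, ha, hfa, hqa⟩ := hex
      exact hN a ha f hf q hq g hg ⟨hs _ _ hfa, hfq, hqg, fun h => hqa (hs _ _ h), hfg,
        fun h => hqa (hsub a ha (hs _ _ h))⟩
    refine ⟨f, hf, hff, hfx, ?_⟩
    intro y hy z hz hfy hyz
    by_contra hfz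
    obtain ⟨g, hg, hgg, hfg, hgy⟩ : ∃ g ∈ D, ¬ A g g ∧ ¬ A f g ∧ A g y := by
      by_cases hzz : A z z
      · obtain ⟨g, hg, hgg, hgf, hgz, hb⟩ := hP.one hf hz hff hzz hfz
        exact ⟨g, hg, hgg, fun h => hgf (hs _ _ h),
          (hb y ⟨fun _ => hs _ _ hyz, fun _ => hfy⟩).2 hfy⟩
      · exact ⟨z, hz, hzz, hfz, hs _ _ hyz⟩
    by_cases hR : ∀ v ∈ D, ¬ A f v → ¬ A g v
    · exact S g hg hfg hgg hR ⟨y, hy, hgy⟩
    · push Not at hR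
      obtain ⟨v, hv, hfv, hgv⟩ := hR
      have hCR : CA A {y | y ∈ D ∧ ¬ A f y} :=
        ih _ (small _ (fun y hy => hy.1) f hf (fun h => h.2 hff)) (hP.neg hs f)
          (hN.mono fun y hy => hy.1)
      obtain ⟨f', ⟨hf', hff'0⟩, hff', hf'g, hcl⟩ := hCR g ⟨hg, hfg⟩ ⟨v, ⟨hv, hfv⟩, hgv⟩
      have hyf' : A y f' := by
        by_contra hyf'
        exact hN f hf y hy g hg f' hf' ⟨hfy, hs _ _ hgy, hs _ _ hf'g, hfg, hyf', hff'0⟩
      obtain ⟨g2, hg2, hgg2, hg2f, hg2f', hb⟩ := hP.one hf hf' hff hff' hff'0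
      have hg2y : A g2 y := (hb y ⟨fun _ => hs _ _ hyf', fun _ => hfy⟩).2 hfy
      refine S g2 hg2 (fun h => hg2f (hs _ _ h)) hgg2 ?_ ⟨y, hy, hg2y⟩
      intro u hu hfu hgu
      have hf'u : A f' u := by
        by_contra hf'u
        exact hfu ((hb u ⟨fun h => absurd h hfu, fun h => absurd h hf'u⟩).1 hgu)
      exact hg2f' (hs _ _ (hcl u ⟨hu, hfu⟩ g2 ⟨hg2, fun h => hg2f (hs _ _ h)⟩ hf'u (hs _ _ hgu)))

end Pool.Agent.H7.P3
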