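import Pool.Agent.H7.P3.Defs

/-!
The substituted graph is cubic and 3-connected.
-/

namespace Pool.Agent.H7.P3

variable {V W : Type} {G : SimpleGraph V} {v : V} {H : SimpleGraph W} {port : W → W → V}

lemma subst_cubic (hG : CubicThreeConnected G) (hp : IsPort G v H port)
    (a : W × {x : V // x ≠ v}) : ((substGraph G v H port).neighborSet a).ncard = 3 := by
  classical
  obtain ⟨w, x⟩ := a
  obtain ⟨z, hz⟩ : ∃ z : W × {x : V // x ≠ v}, G.Adj x v →
      (H.Adj w z.1 ∧ (x : V) = port w z.1 ∧ (z.2 : V) = port z.1 w) := by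
    by_cases h : G.Adj x v
    · obtain ⟨w', hw', hpw⟩ := hp.surj w x h.symm
      exact ⟨(w', ⟨port w' w, (hp.mem _ _ hw'.symm).ne'⟩), fun _ => ⟨hw', hpw.symm, rfl⟩⟩
    · exact ⟨(w, x), fun hc => absurd hc h⟩
  let φ : V → W × {x : V // x ≠ v} := fun y => if h : y = v then z else (w, ⟨y, h⟩)
  have himg : (substGraph G v H port).neighborSet (w, x) = φ '' (G.neighborSet x) := by
    ext b
    simp only [SimpleGraph.mem_neighborSet, Set.mem_image]
    constructor
    · rintro (⟨h1, h2⟩ | ⟨h1, h2, h3⟩)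
      · refine ⟨b.2, h2, ?_⟩
        simp only [φ, b.2.2, dif_neg, not_false_eq_true]
        exact Prod.ext h1 rfl
      · have hxv : G.Adj x v := by
          have := hp.mem _ _ h1
          rw [← h2] at this
          exact this.symm
        obtain ⟨z1, z2, z3⟩ := hz hxv
        refine ⟨v, hxv, ?_⟩
        simp only [φ, dif_pos]
        have e1 : z.1 = b.1 := hp.inj w _ _ z1 h1 (z2.symm.trans h2)
        refine Prod.ext e1 (Subtype.ext ?_)
        rw [z3, h3, e1]
    · rintro ⟨y, hy, rfl⟩
      by_cases h : y = v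
      · subst h
        simp only [φ, dif_pos]
        exact Or.inr (hz hy)
      · simp only [φ, h, dif_neg, not_false_eq_true]
        exact Or.inl ⟨rfl, hy⟩
  rw [himg, Set.InjOn.ncard_image, hG.cubic]
  intro y hy y' hy' he
  simp only [φ] at he
  by_cases h : y = v
  · by_cases h' : y' = v
    · rw [h, h']
    · exfalso
      rw [dif_pos h, dif_neg h'] at he
      have := (hz (h ▸ hy)).1
      rw [he] at this
      exact H.loopless.irrefl _ this
  · by_cases h' : y' = v
    · exfalso
      rw [dif_neg h, dif_pos h'] at he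
      have := (hz (h' ▸ hy')).1
      rw [← he] at this
      exact H.loopless.irrefl _ this
    · rw [dif_neg h, dif_neg h'] at he
      simpa using he

/-- reachability inside one copy -/
lemma reach_copy (hG : CubicThreeConnected G) {S : Set (W × {x : V // x ≠ v})} (w : W)
    (T : Set V) (hT : T.ncard ≤ 2) (hv : v ∈ T)
    (hS : ∀ x : {x : V // x ≠ v}, (x : V) ∉ T → (w, x) ∉ S)
    (x y : {x : V // x ≠ v}) (hx : (x : V) ∉ T) (hy : (y : V) ∉ T) :
    ((substGraph G v H port).induce Sᶜ).Reachable ⟨(w, x), hS x hx⟩ ⟨(w, y), hS y hy⟩ := by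
  have hc := hG.conn T hT
  have hne : ∀ u : (Tᶜ : Set V), (u : V) ≠ v := fun u hu => u.2 (hu ▸ hv)
  let φ : (G.induce Tᶜ) →g ((substGraph G v H port).induce Sᶜ) :=
    { toFun := fun u => ⟨(w, ⟨u, hne u⟩), hS ⟨u, hne u⟩ u.2⟩
      map_rel' := by
        intro a b hab
        exact Or.inl ⟨rfl, hab⟩ }
  exact (hc.preconnected ⟨x, hx⟩ ⟨y, hy⟩).map φ

lemma adj_cross (hp : IsPort G v H port) {S : Set (W × {x : V // x ≠ v})} {w w' : W}
    (h : H.Adj w w') (h1 : (w, (⟨port w w', (hp.mem _ _ h).ne'⟩ : {x : V // x ≠ v})) ∉ S)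
    (h2 : (w', (⟨port w' w, (hp.mem _ _ h.symm).ne'⟩ : {x : V // x ≠ v})) ∉ S) :
    ((substGraph G v H port).induce Sᶜ).Adj ⟨_, h1⟩ ⟨_, h2⟩ :=
  Or.inr ⟨h, rfl, rfl⟩

/-- the copies that are not met by `S` are mutually reachable -/
lemma reach_good (hG : CubicThreeConnected G) (hp : IsPort G v H port)
    {S : Set (W × {x : V // x ≠ v})} {D : Set W} (hD : ∀ w x, w ∉ D → (w, x) ∉ S)
    {a b : (Dᶜ : Set W)} (p : (H.induce Dᶜ).Walk a b) :
    ∀ x y : {x : V // x ≠ v}, ((substGraph G v H port).induce Sᶜ).Reachable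
      ⟨(a, x), hD _ _ a.2⟩ ⟨(b, y), hD _ _ b.2⟩ := by
  have hcopy : ∀ (a : (Dᶜ : Set W)) (x y : {x : V // x ≠ v}),
      ((substGraph G v H port).induce Sᶜ).Reachable
      ⟨(a, x), hD _ _ a.2⟩ ⟨(a, y), hD _ _ a.2⟩ := by
    intro a x y
    exact reach_copy hG (a : W) {v} (by simp) rfl (fun x _ => hD _ _ a.2) x y
      (by simpa using x.2) (by simpa using y.2)
  induction p with
  | nil => exact hcopy _
  | @cons a c b h p ih =>
    intro x y
    have h' : H.Adj (a : W) (c : W) := h
    refine (hcopy a x ⟨port a c, (hp.mem _ _ h').ne'⟩).trans ?_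
    refine (adj_cross hp h' (hD _ _ a.2) (hD _ _ c.2)).reachable.trans ?_
    exact ih _ _

/-- if the deleted vertices of the copy of `w` are in `T`, every remaining vertex of the copy
reaches another copy -/
lemma reach_out (hp : IsPort G v H port)
    {S : Set (W × {x : V // x ≠ v})} {D : Set W} (hD : ∀ w x, w ∉ D → (w, x) ∉ S) {w : W}
    (hDw : ∀ z, z ∈ D → z = w) (T : Set V)
    (hS : ∀ x : {x : V // x ≠ v}, (x : V) ∉ T → (w, x) ∉ S)
    {a b : (Tᶜ : Set V)} (p : (G.induce Tᶜ).Walk a b) (hb : (b : V) = v) :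
    ∀ ha : (a : V) ≠ v, ∃ (z : W) (hz : z ∉ D) (y : {x : V // x ≠ v}),
      ((substGraph G v H port).induce Sᶜ).Reachable
        ⟨(w, ⟨a, ha⟩), hS ⟨a, ha⟩ a.2⟩ ⟨(z, y), hD _ _ hz⟩ := by
  induction p with
  | nil => exact fun ha => absurd hb ha
  | @cons a c b h p ih =>
    intro ha
    have h' : G.Adj (a : V) (c : V) := h
    by_cases hc : (c : V) = v
    · have hav : G.Adj v a := hc ▸ h'.symm
      obtain ⟨z, hz, hpz⟩ := hp.surj w a hav
      have hzD : z ∉ D := fun hmem => by
        have := hDw z hmem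
        rw [this] at hz
        exact H.loopless.irrefl _ hz
      refine ⟨z, hzD, ⟨port z w, (hp.mem _ _ hz.symm).ne'⟩, ?_⟩
      have hadj : ((substGraph G v H port).induce Sᶜ).Adj
          ⟨(w, ⟨a, ha⟩), hS ⟨a, ha⟩ a.2⟩
          ⟨(z, ⟨port z w, (hp.mem _ _ hz.symm).ne'⟩), hD _ _ hzD⟩ :=
        Or.inr ⟨hz, hpz.symm, rfl⟩
      exact hadj.reachable
    · obtain ⟨z, hz, y, hr⟩ := ih hb hc
      refine ⟨z, hz, y, ?_⟩
      have hadj : ((substGraph G v H port).induce Sᶜ).Adj
          ⟨(w, ⟨a, ha⟩), hS ⟨a, ha⟩ a.2⟩ ⟨(w, ⟨c, hc⟩), hS ⟨c, hc⟩ c.2⟩ := Or.inl ⟨rfl, h'⟩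
      exact hadj.reachable.trans hr

theorem subst_conn (hG : CubicThreeConnected G) (hH : CubicThreeConnected H)
    (hp : IsPort G v H port) (S : Set (W × {x : V // x ≠ v})) (hS : S.ncard ≤ 2) :
    ((substGraph G v H port).induce Sᶜ).Connected := by
  classical
  have hfV := hG.finite
  have hfW := hH.finite
  have hSfin : S.Finite := Set.toFinite S
  set D : Set W := Prod.fst '' S with hDdef
  have hDfin : D.Finite := Set.toFinite D
  have hDcard : D.ncard ≤ 2 := (Set.ncard_image_le hSfin).trans hS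
  have hD : ∀ w x, w ∉ D → (w, x) ∉ S := fun w x hw hmem => hw ⟨(w, x), hmem, rfl⟩
  -- every remaining vertex reaches a copy outside `D`
  have hout : ∀ (w : W) (x : {x : V // x ≠ v}) (hx : (w, x) ∉ S),
      ∃ (z : W) (hz : z ∉ D) (y : {x : V // x ≠ v}),
      ((substGraph G v H port).induce Sᶜ).Reachable ⟨(w, x), hx⟩ ⟨(z, y), hD _ _ hz⟩ := by
    intro w x hx
    by_cases hwD : w ∈ D
    · -- the deleted vertices in the copy of `w`
      set T₀ : Set V := {u | ∃ h : u ≠ v, (w, (⟨u, h⟩ : {x : V // x ≠ v})) ∈ S} with hT₀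
      have hT₀S : ((fun u : V => if h : u ≠ v then (w, (⟨u, h⟩ : {x : V // x ≠ v})) else (w, x)) ''
          T₀) ⊆ S := by
        rintro _ ⟨u, ⟨h, hu⟩, rfl⟩
        simpa [h] using hu
      have hinj : Set.InjOn (fun u : V => if h : u ≠ v then (w, (⟨u, h⟩ : {x : V // x ≠ v}))
          else (w, x)) T₀ := by
        rintro u ⟨h, hu⟩ u' ⟨h', hu'⟩ he
        simpa [h, h'] using he
      have hT₀card : T₀.ncard ≤ S.ncard := by
        rw [← hinj.ncard_image]
        exact Set.ncard_le_ncard hT₀S hSfin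
      have hST : ∀ y : {x : V // x ≠ v}, (y : V) ∉ T₀ → (w, y) ∉ S :=
        fun y hy hmem => hy ⟨y.2, hmem⟩
      have hxT : (x : V) ∉ T₀ := by
        rintro ⟨_, h⟩
        exact hx h
      have hvT : v ∉ T₀ := by
        rintro ⟨h, _⟩
        exact h rfl
      by_cases hone : T₀.ncard ≤ 1
      · -- one deleted vertex in the copy
        obtain ⟨⟨w', s⟩, hs, hsw⟩ := hwD
        simp only at hsw
        subst hsw
        have hT₀eq : T₀ = {(s : V)} := by
          have hmem : (s : V) ∈ T₀ := ⟨s.2, hs⟩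
          refine Set.eq_of_subset_of_ncard_le ?_ ?_ |>.symm
          · simpa using hmem
          · simpa using hone
        -- choose a good neighbour
        obtain ⟨z, hz, hzD, hzs⟩ : ∃ z, H.Adj w' z ∧ z ∉ D ∧ port w' z ≠ s := by
          by_contra hcon
          push Not at hcon
          have hsub : H.neighborSet w' ⊆ (D \ {w'}) ∪ {z | H.Adj w' z ∧ port w' z = s} := by
            intro z hz
            by_cases hzD : z ∈ D
            · left
              refine ⟨hzD, ?_⟩
              rintro rfl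
              exact H.loopless.irrefl _ hz
            · right
              exact ⟨hz, hcon z hz hzD⟩
          have h1 : (D \ {w'}).ncard ≤ 1 := by
            have hmem : w' ∈ D := ⟨(w', s), hs, rfl⟩
            have := Set.ncard_diff_singleton_add_one hmem hDfin
            omega
          have h2 : ({z | H.Adj w' z ∧ port w' z = s} : Set W).ncard ≤ 1 := by
            rw [Set.ncard_le_one (Set.toFinite _)]
            rintro a ⟨ha, ha'⟩ b ⟨hb, hb'⟩
            exact hp.inj _ _ _ ha hb (ha'.trans hb'.symm)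
          have h3 := Set.ncard_le_ncard hsub (Set.toFinite _)
          have h4 := Set.ncard_union_le (D \ {w'}) {z | H.Adj w' z ∧ port w' z = s}
          have h5 := hH.cubic w'
          omega
        refine ⟨z, hzD, ⟨port z w', (hp.mem _ _ hz.symm).ne'⟩, ?_⟩
        have hT : ({v, (s : V)} : Set V).ncard ≤ 2 := by
          refine (Set.ncard_insert_le _ _).trans ?_
          simp
        have hST' : ∀ y : {x : V // x ≠ v}, (y : V) ∉ ({v, (s : V)} : Set V) → (w', y) ∉ S := by
          intro y hy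
          apply hST
          rw [hT₀eq]
          intro hc
          exact hy (Or.inr hc)
        have hpm := hp.mem _ _ hz
        have hpS : (port w' z : V) ∉ ({v, (s : V)} : Set V) := by
          rintro (h | h)
          · exact hpm.ne' h
          · exact hzs h
        have hxs : (x : V) ∉ ({v, (s : V)} : Set V) := by
          rintro (h | h)
          · exact x.2 h
          · exact hxT (by rw [hT₀eq]; exact h)
        have r1 := reach_copy (H := H) (port := port) hG w' {v, (s : V)} hT (Or.inl rfl) hST' x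
          ⟨port w' z, hpm.ne'⟩ hxs hpS
        exact r1.trans (adj_cross hp hz _ _).reachable
      · -- two deleted vertices in the copy
        have hDw : ∀ z, z ∈ D → z = w := by
          rintro z ⟨⟨z', t⟩, ht, htz⟩
          simp only at htz
          subst htz
          by_contra hne
          have hsub : insert (z', t) ((fun u : V => if h : u ≠ v then
              (w, (⟨u, h⟩ : {x : V // x ≠ v})) else (w, x)) '' T₀) ⊆ S := by
            intro b hb
            rcases hb with rfl | hb
            · exact ht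
            · exact hT₀S hb
          have h1 := Set.ncard_le_ncard hsub hSfin
          rw [Set.ncard_insert_of_notMem _ (Set.toFinite _), hinj.ncard_image] at h1
          · omega
          · rintro ⟨u, ⟨h, hu⟩, he⟩
            simp only [h, ne_eq, not_false_eq_true, dif_pos, Prod.mk.injEq] at he
            exact hne he.1.symm
        have hc := hG.conn T₀ (hT₀card.trans hS)
        obtain ⟨p⟩ := hc.preconnected ⟨x, hxT⟩ ⟨v, hvT⟩
        exact reach_out hp hD hDw T₀ hST p rfl x.2
    · exact ⟨w, hwD, x, SimpleGraph.Reachable.refl _⟩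
  -- a base vertex
  obtain ⟨w₀, hw₀⟩ : ∃ w₀, w₀ ∉ D := by
    by_contra hcon
    push Not at hcon
    have : D = Set.univ := Set.eq_univ_of_forall hcon
    rw [this, Set.ncard_univ] at hDcard
    have := hH.four_le
    omega
  obtain ⟨x₀⟩ : Nonempty {x : V // x ≠ v} := by
    have : (G.neighborSet v).Nonempty := by
      rw [← Set.ncard_pos (Set.toFinite _), hG.cubic]
      omega
    obtain ⟨x, hx⟩ := this
    exact ⟨⟨x, (show G.Adj v x from hx).ne'⟩⟩
  have hgood : ∀ (z : W) (hz : z ∉ D) (y : {x : V // x ≠ v}),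
      ((substGraph G v H port).induce Sᶜ).Reachable ⟨(z, y), hD _ _ hz⟩
        ⟨(w₀, x₀), hD _ _ hw₀⟩ := by
    intro z hz y
    obtain ⟨p⟩ := (hH.conn D hDcard).preconnected ⟨z, hz⟩ ⟨w₀, hw₀⟩
    exact reach_good hG hp hD p y x₀
  have hall : ∀ a : (Sᶜ : Set (W × {x : V // x ≠ v})),
      ((substGraph G v H port).induce Sᶜ).Reachable a ⟨(w₀, x₀), hD _ _ hw₀⟩ := by
    rintro ⟨⟨w, x⟩, hx⟩
    obtain ⟨z, hz, y, hr⟩ := hout w x hx
    exact hr.trans (hgood z hz y)
  haveI : Nonempty (Sᶜ : Set (W × {x : V // x ≠ v})) := ⟨⟨(w₀, x₀), hD _ _ hw₀⟩⟩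
  exact ⟨fun a b => (hall a).trans (hall b).symm⟩

lemma card_subst (hG : CubicThreeConnected G) (hH : CubicThreeConnected H) :
    Nat.card (W × {x : V // x ≠ v}) = Nat.card W * (Nat.card V - 1) := by
  classical
  have hfV := hG.finite
  have hfW := hH.finite
  letI := Fintype.ofFinite V
  letI := Fintype.ofFinite W
  rw [Nat.card_prod]
  congr 1
  rw [Nat.card_eq_fintype_card, Nat.card_eq_fintype_card]
  simp [Fintype.card_subtype_compl]

theorem subst_good (hG : CubicThreeConnected G) (hH : CubicThreeConnected H)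
    (hp : IsPort G v H port) : CubicThreeConnected (substGraph G v H port) := by
  have hfV := hG.finite
  have hfW := hH.finite
  refine ⟨inferInstance, subst_cubic hG hp, ?_, subst_conn hG hH hp⟩
  rw [card_subst hG hH]
  have h1 := hG.four_le
  have h2 := hH.four_le
  have h3 : 3 ≤ Nat.card V - 1 := by omega
  calc 4 ≤ 4 * 3 := by norm_num
    _ ≤ Nat.card W * (Nat.card V - 1) := Nat.mul_le_mul h2 h3

end Pool.Agent.H7.P3
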