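import Pool.Agent.H7.P3.Defs

/-!
The counting argument: if `G` has too few disjoint three-vertex paths, then every family of
disjoint three-vertex paths of the substituted graph misses a vertex in a quarter of the copies.
-/

namespace Pool.Agent.H7.P3

open Finset

set_option linter.unusedSectionVars false

variable {V W : Type} [Fintype V] [Fintype W] [DecidableEq V] [DecidableEq W]
  {G : SimpleGraph V} {v : V} {H : SimpleGraph W} {port : W → W → V} {k : ℕ}
  {g : Fin k → Fin 3 → W × {x : V // x ≠ v}}

/-- number of vertices of the path `i` in the copy of `w` -/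
def nn (g : Fin k → Fin 3 → W × {x : V // x ≠ v}) (w : W) (i : Fin k) : ℕ :=
  (if (g i 0).1 = w then 1 else 0) + (if (g i 1).1 = w then 1 else 0) +
    (if (g i 2).1 = w then 1 else 0)

lemma nn_three {w : W} {i : Fin k} (h : nn g w i = 3) (j : Fin 3) : (g i j).1 = w := by
  unfold nn at h
  have h0 : (g i 0).1 = w := by by_contra hc; simp only [hc, if_false] at h; split_ifs at h <;> omega
  have h1 : (g i 1).1 = w := by by_contra hc; simp only [hc, if_false] at h; split_ifs at h <;> omega
  have h2 : (g i 2).1 = w := by by_contra hc; simp only [hc, if_false] at h; split_ifs at h <;> omega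
  fin_cases j
  · exact h0
  · exact h1
  · exact h2

lemma adj_same {a b : W × {x : V // x ≠ v}} (hadj : (substGraph G v H port).Adj a b)
    (h : a.1 = b.1) : G.Adj a.2 b.2 := by
  rcases hadj with h1 | h1
  · exact h1.2
  · exact absurd (h ▸ h1.1) (H.loopless.irrefl _)

lemma adj_diff {a b : W × {x : V // x ≠ v}} (hadj : (substGraph G v H port).Adj a b)
    (h : a.1 ≠ b.1) : H.Adj a.1 b.1 ∧ (a.2 : V) = port a.1 b.1 ∧ (b.2 : V) = port b.1 a.1 := by
  rcases hadj with h1 | h1
  · exact absurd h1.1 h
  · exact h1

/-- the middle vertex of a path is in the same copy as one of the ends -/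
lemma not_both (hp : IsPort G v H port)
    (hg : Function.Injective (fun p : Fin k × Fin 3 => g p.1 p.2))
    (hadj : ∀ i, (substGraph G v H port).Adj (g i 0) (g i 1) ∧
      (substGraph G v H port).Adj (g i 1) (g i 2)) (i : Fin k) :
    (g i 0).1 = (g i 1).1 ∨ (g i 1).1 = (g i 2).1 := by
  by_contra hcon
  push Not at hcon
  obtain ⟨h1, h2⟩ := hcon
  have a1 := adj_diff (hadj i).1 h1
  have a2 := adj_diff (hadj i).2 h2
  have e1 : (g i 0).1 = (g i 2).1 :=
    hp.inj (g i 1).1 _ _ a1.1.symm a2.1 (a1.2.2.symm.trans a2.2.1)
  have e2 : g i 0 = g i 2 := by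
    refine Prod.ext e1 (Subtype.ext ?_)
    rw [a1.2.1, a2.2.2, e1]
  have := hg (a₁ := (i, 0)) (a₂ := (i, 2)) e2
  simp at this

/-- a path with exactly two vertices in the copy of `w` -/
lemma nn_two (hp : IsPort G v H port)
    (hg : Function.Injective (fun p : Fin k × Fin 3 => g p.1 p.2))
    (hadj : ∀ i, (substGraph G v H port).Adj (g i 0) (g i 1) ∧
      (substGraph G v H port).Adj (g i 1) (g i 2)) {w : W} {i : Fin k} (h : nn g w i = 2) :
    ∃ a : Fin 3, a ≠ 1 ∧ (g i 1).1 = w ∧ (g i a).1 = w ∧ G.Adj v (g i 1).2 ∧
      G.Adj (g i 1).2 (g i a).2 := by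
  unfold nn at h
  rcases not_both hp hg hadj i with h01 | h12
  · by_cases h0 : (g i 0).1 = w
    · have h1 : (g i 1).1 = w := h01 ▸ h0
      have h2 : (g i 2).1 ≠ w := by
        intro hc; simp [h0, h1, hc] at h
      refine ⟨0, by decide, h1, h0, ?_, (adj_same (hadj i).1 h01).symm⟩
      have := adj_diff (hadj i).2 (by rw [h1]; exact fun hc => h2 hc.symm)
      rw [this.2.1]
      exact hp.mem _ _ this.1
    · have h1 : (g i 1).1 ≠ w := h01 ▸ h0
      exfalso
      simp only [h0, h1, if_false] at h
      split_ifs at h <;> omega
  · by_cases h2 : (g i 2).1 = w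
    · have h1 : (g i 1).1 = w := h12.trans h2
      have h0 : (g i 0).1 ≠ w := by
        intro hc; simp [hc, h1, h2] at h
      refine ⟨2, by decide, h1, h2, ?_, adj_same (hadj i).2 h12⟩
      have := adj_diff (hadj i).1 (by rw [h1]; exact h0)
      rw [this.2.2]
      exact hp.mem _ _ this.1.symm
    · have h1 : (g i 1).1 ≠ w := fun hc => h2 (h12 ▸ hc)
      exfalso
      simp only [h2, h1, if_false] at h
      split_ifs at h <;> omega

/-- a path with exactly one vertex in the copy of `w` -/
lemma nn_one (hp : IsPort G v H port)
    (hg : Function.Injective (fun p : Fin k × Fin 3 => g p.1 p.2))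
    (hadj : ∀ i, (substGraph G v H port).Adj (g i 0) (g i 1) ∧
      (substGraph G v H port).Adj (g i 1) (g i 2)) {w : W} {i : Fin k} (h : nn g w i = 1) :
    ∃ a : Fin 3, (g i a).1 = w ∧ G.Adj v (g i a).2 := by
  unfold nn at h
  rcases not_both hp hg hadj i with h01 | h12
  · by_cases h0 : (g i 0).1 = w
    · have h1 : (g i 1).1 = w := h01 ▸ h0
      exfalso
      simp only [h0, h1, if_true] at h
      split_ifs at h <;> omega
    · have h1 : (g i 1).1 ≠ w := h01 ▸ h0
      have h2 : (g i 2).1 = w := by
        by_contra hc; simp [h0, h1, hc] at h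
      refine ⟨2, h2, ?_⟩
      have := adj_diff (hadj i).2 (by rw [h2]; exact h1)
      rw [this.2.2]
      exact hp.mem _ _ this.1.symm
  · by_cases h2 : (g i 2).1 = w
    · have h1 : (g i 1).1 = w := h12.trans h2
      exfalso
      simp only [h2, h1, if_true] at h
      split_ifs at h <;> omega
    · have h1 : (g i 1).1 ≠ w := fun hc => h2 (h12 ▸ hc)
      have h0 : (g i 0).1 = w := by
        by_contra hc; simp [hc, h1, h2] at h
      refine ⟨0, h0, ?_⟩
      have := adj_diff (hadj i).1 (by rw [h0]; exact fun hc => h1 hc.symm)
      rw [this.2.1]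
      exact hp.mem _ _ this.1

/-- the paths inside the copy of `w` -/
lemma hasPaths_inside (hg : Function.Injective (fun p : Fin k × Fin 3 => g p.1 p.2))
    (hadj : ∀ i, (substGraph G v H port).Adj (g i 0) (g i 1) ∧
      (substGraph G v H port).Adj (g i 1) (g i 2)) (w : W) :
    HasPaths G (univ.filter (fun i => nn g w i = 3)).card := by
  have := HasPaths.of_fintype (G := G) (ι := {i : Fin k // nn g w i = 3})
    (fun i j => ((g i.1 j).2 : V)) ?_ ?_
  · rwa [Fintype.card_subtype] at this
  · rintro ⟨⟨i, hi⟩, j⟩ ⟨⟨i', hi'⟩, j'⟩ he
    have h1 : g i j = g i' j' :=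
      Prod.ext ((nn_three hi j).trans (nn_three hi' j').symm) (Subtype.ext he)
    have h2 := hg (a₁ := (i, j)) (a₂ := (i', j')) h1
    simp only [Prod.mk.injEq] at h2
    simp only [Prod.mk.injEq, Subtype.mk.injEq]
    exact h2
  · rintro ⟨i, hi⟩
    exact ⟨adj_same (hadj i).1 ((nn_three hi 0).trans (nn_three hi 1).symm),
      adj_same (hadj i).2 ((nn_three hi 1).trans (nn_three hi 2).symm)⟩

/-- the paths inside the copy of `w` together with one more path -/
lemma hasPaths_extend (hg : Function.Injective (fun p : Fin k × Fin 3 => g p.1 p.2))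
    (hadj : ∀ i, (substGraph G v H port).Adj (g i 0) (g i 1) ∧
      (substGraph G v H port).Adj (g i 1) (g i 2)) (w : W) (t : Fin 3 → V)
    (ht : Function.Injective t) (h01 : G.Adj (t 0) (t 1)) (h12 : G.Adj (t 1) (t 2))
    (hdisj : ∀ i, nn g w i = 3 → ∀ j j', ((g i j).2 : V) ≠ t j') :
    HasPaths G ((univ.filter (fun i => nn g w i = 3)).card + 1) := by
  have := HasPaths.of_fintype (G := G) (ι := Option {i : Fin k // nn g w i = 3})
    (fun i j => i.elim (t j) (fun i => ((g i.1 j).2 : V))) ?_ ?_
  · rwa [Fintype.card_option, Fintype.card_subtype] at this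
  · rintro ⟨_ | ⟨i, hi⟩, j⟩ ⟨_ | ⟨i', hi'⟩, j'⟩ he
    · simp only [Option.elim_none] at he
      rw [ht he]
    · simp only [Option.elim_none, Option.elim_some] at he
      exact absurd he.symm (hdisj i' hi' j' j)
    · simp only [Option.elim_none, Option.elim_some] at he
      exact absurd he (hdisj i hi j j')
    · simp only [Option.elim_some] at he
      have h1 : g i j = g i' j' :=
        Prod.ext ((nn_three hi j).trans (nn_three hi' j').symm) (Subtype.ext he)
      have h2 := hg (a₁ := (i, j)) (a₂ := (i', j')) h1
      simp only [Prod.mk.injEq] at h2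
      simp only [Prod.mk.injEq, Option.some.injEq, Subtype.mk.injEq]
      exact h2
  · rintro (_ | ⟨i, hi⟩)
    · exact ⟨h01, h12⟩
    · exact ⟨adj_same (hadj i).1 ((nn_three hi 0).trans (nn_three hi 1).symm),
        adj_same (hadj i).2 ((nn_three hi 1).trans (nn_three hi 2).symm)⟩

/-- at most three paths cross the boundary of a copy -/
lemma card_cross (hG : CubicThreeConnected G) (hp : IsPort G v H port)
    (hg : Function.Injective (fun p : Fin k × Fin 3 => g p.1 p.2))
    (hadj : ∀ i, (substGraph G v H port).Adj (g i 0) (g i 1) ∧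
      (substGraph G v H port).Adj (g i 1) (g i 2)) (w : W) :
    (univ.filter (fun i => nn g w i = 1)).card + (univ.filter (fun i => nn g w i = 2)).card ≤ 3 := by
  classical
  rw [← card_union_of_disjoint]
  · have hex : ∀ i : Fin k, (nn g w i = 1 ∨ nn g w i = 2) → ∃ a : Fin 3, (g i a).1 = w ∧
        G.Adj v (g i a).2 := by
      rintro i (h | h)
      · exact nn_one hp hg hadj h
      · obtain ⟨a, _, h1, _, h2, _⟩ := nn_two hp hg hadj h
        exact ⟨1, h1, h2⟩
    choose! a ha using hex
    have h3 : (G.neighborSet v).toFinset.card = 3 := by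
      rw [← Set.ncard_eq_toFinset_card', hG.cubic]
    rw [← h3]
    refine card_le_card_of_injOn (fun i => ((g i (a i)).2 : V)) ?_ ?_
    · intro i hi
      simp only [coe_union, coe_filter, mem_univ, true_and, Set.mem_union, Set.mem_setOf_eq] at hi
      simp only [Set.coe_toFinset, SimpleGraph.mem_neighborSet]
      exact (ha i hi).2
    · intro i hi i' hi' he
      simp only [coe_union, coe_filter, mem_univ, true_and, Set.mem_union, Set.mem_setOf_eq]
        at hi hi'
      have h1 : g i (a i) = g i' (a i') :=
        Prod.ext ((ha i hi).1.trans (ha i' hi').1.symm) (Subtype.ext he)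
      have h2 := hg (a₁ := (i, a i)) (a₂ := (i', a i')) h1
      simp only [Prod.mk.injEq] at h2
      exact h2.1
  · rw [disjoint_filter]
    intro i _ h1 h2
    omega

/-- every crossing path has exactly one vertex in one copy and two vertices in one copy -/
lemma sum_cross (hp : IsPort G v H port)
    (hg : Function.Injective (fun p : Fin k × Fin 3 => g p.1 p.2))
    (hadj : ∀ i, (substGraph G v H port).Adj (g i 0) (g i 1) ∧
      (substGraph G v H port).Adj (g i 1) (g i 2)) :
    ∑ w, (univ.filter (fun i => nn g w i = 1)).card =
      ∑ w, (univ.filter (fun i => nn g w i = 2)).card := by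
  simp only [card_filter]
  rw [sum_comm, sum_comm (s := univ) (t := univ) (f := fun w i => if nn g w i = 2 then 1 else 0)]
  refine sum_congr rfl fun i _ => ?_
  rcases not_both hp hg hadj i with h01 | h12
  · by_cases h : (g i 1).1 = (g i 2).1
    · have h1 : ∀ w, nn g w i ≠ 1 := by
        intro w
        unfold nn
        rw [h01, h]
        split_ifs <;> simp
      have h2 : ∀ w, nn g w i ≠ 2 := by
        intro w
        unfold nn
        rw [h01, h]
        split_ifs <;> simp
      simp [h1, h2]
    · have h1 : ∀ w, nn g w i = 1 ↔ w = (g i 2).1 := by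
        intro w
        unfold nn
        rw [h01]
        constructor
        · intro hh
          split_ifs at hh <;> first | omega | (symm; assumption)
        · rintro rfl
          simp [h]
      have h2 : ∀ w, nn g w i = 2 ↔ w = (g i 1).1 := by
        intro w
        unfold nn
        rw [h01]
        constructor
        · intro hh
          split_ifs at hh <;> first | omega | (symm; assumption)
        · rintro rfl
          have : (g i 2).1 ≠ (g i 1).1 := fun hc => h hc.symm
          simp [this]
      simp [h1, h2]
  · by_cases h : (g i 0).1 = (g i 1).1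
    · have h1 : ∀ w, nn g w i ≠ 1 := by
        intro w
        unfold nn
        rw [h, h12]
        split_ifs <;> simp
      have h2 : ∀ w, nn g w i ≠ 2 := by
        intro w
        unfold nn
        rw [h, h12]
        split_ifs <;> simp
      simp [h1, h2]
    · have h1 : ∀ w, nn g w i = 1 ↔ w = (g i 0).1 := by
        intro w
        unfold nn
        rw [← h12]
        constructor
        · intro hh
          split_ifs at hh <;> first | omega | (symm; assumption)
        · rintro rfl
          have : (g i 1).1 ≠ (g i 0).1 := fun hc => h hc.symm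
          simp [this]
      have h2 : ∀ w, nn g w i = 2 ↔ w = (g i 1).1 := by
        intro w
        unfold nn
        rw [← h12]
        constructor
        · intro hh
          split_ifs at hh <;> first | omega | (symm; assumption)
        · rintro rfl
          simp [h]
      simp [h1, h2]

/-- the number of covered vertices in the copy of `w` -/
lemma sum_nn (w : W) : ∑ i, nn g w i = 3 * (univ.filter (fun i => nn g w i = 3)).card +
    2 * (univ.filter (fun i => nn g w i = 2)).card + (univ.filter (fun i => nn g w i = 1)).card := by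
  simp only [card_filter, mul_sum, ← sum_add_distrib]
  refine sum_congr rfl fun i _ => ?_
  have : nn g w i ≤ 3 := by unfold nn; split_ifs <;> omega
  interval_cases h : nn g w i <;> simp

lemma sum_nn_le (hg : Function.Injective (fun p : Fin k × Fin 3 => g p.1 p.2)) (w : W) :
    ∑ i, nn g w i + 1 ≤ Fintype.card V := by
  classical
  have h1 : ∑ i, nn g w i = (univ.filter (fun p : Fin k × Fin 3 => (g p.1 p.2).1 = w)).card := by
    rw [card_filter, ← univ_product_univ, sum_product]
    refine sum_congr rfl fun i _ => ?_
    rw [Fin.sum_univ_three]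
    rfl
  have h2 : (univ.filter (fun p : Fin k × Fin 3 => (g p.1 p.2).1 = w)).card ≤
      (univ.erase v : Finset V).card := by
    refine card_le_card_of_injOn (fun p => ((g p.1 p.2).2 : V)) ?_ ?_
    · intro p _
      simp only [coe_erase, coe_univ, Set.mem_diff, Set.mem_univ, Set.mem_singleton_iff, true_and]
      exact (g p.1 p.2).2.2
    · intro p hp p' hp' he
      simp only [coe_filter, mem_univ, true_and, Set.mem_setOf_eq] at hp hp'
      exact hg (Prod.ext (hp.trans hp'.symm) (Subtype.ext he))
  rw [card_erase_of_mem (mem_univ v), card_univ] at h2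
  have : 0 < Fintype.card V := Fintype.card_pos_iff.2 ⟨v⟩
  omega

lemma sum_sum_nn : ∑ w : W, ∑ i, nn g w i = 3 * k := by
  rw [sum_comm]
  have : ∀ i : Fin k, ∑ w : W, nn g w i = 3 := by
    intro i
    unfold nn
    rw [sum_add_distrib, sum_add_distrib]
    simp
  simp [this, mul_comm]

/-- the local inequality -/
lemma local_ineq (hG : CubicThreeConnected G) (hp : IsPort G v H port)
    (hg : Function.Injective (fun p : Fin k × Fin 3 => g p.1 p.2))
    (hadj : ∀ i, (substGraph G v H port).Adj (g i 0) (g i 1) ∧
      (substGraph G v H port).Adj (g i 1) (g i 2)) {k₀ : ℕ} (hk₀ : 3 * k₀ ≤ Fintype.card V)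
    (hno : ¬ HasPaths G k₀) (w : W) :
    4 * (∑ i, nn g w i) + 1 + (univ.filter (fun i => nn g w i = 1)).card ≤
      4 * (Fintype.card V - 1) + (univ.filter (fun i => nn g w i = 2)).card := by
  have hcross := card_cross hG hp hg hadj w
  have hle := sum_nn_le hg w
  rcases Nat.lt_or_ge (∑ i, nn g w i + 1) (Fintype.card V) with hlt | hge
  · omega
  · have hs := sum_nn (g := g) w
    have hlt : ∀ m, HasPaths G m → 3 * (m + 1) ≤ Fintype.card V := by
      intro m hm
      have : m < k₀ := by
        by_contra hc
        exact hno (hm.mono (not_lt.1 hc))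
      omega
    have h1 := hlt _ (hasPaths_inside hg hadj w)
    have h2 : HasPaths G ((univ.filter (fun i => nn g w i = 3)).card + 1) := by
      rcases Nat.eq_zero_or_pos (univ.filter (fun i => nn g w i = 2)).card with hq | hq
      · -- two paths with one vertex in the copy
        have h3 : 1 < (univ.filter (fun i => nn g w i = 1)).card := by omega
        obtain ⟨i, hi, i', hi', hne⟩ := one_lt_card.1 h3
        simp only [mem_filter, mem_univ, true_and] at hi hi'
        obtain ⟨a, ha, hav⟩ := nn_one hp hg hadj hi
        obtain ⟨a', ha', hav'⟩ := nn_one hp hg hadj hi'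
        have hd : ((g i a).2 : V) ≠ (g i' a').2 := by
          intro he
          have h1 : g i a = g i' a' := Prod.ext (ha.trans ha'.symm) (Subtype.ext he)
          have h2 := hg (a₁ := (i, a)) (a₂ := (i', a')) h1
          simp only [Prod.mk.injEq] at h2
          exact hne h2.1
        refine hasPaths_extend hg hadj w ![((g i a).2 : V), v, (g i' a').2] ?_ ?_ ?_ ?_
        · intro x y hxy
          fin_cases x <;> fin_cases y <;>
            simp_all [hav.ne, hav.ne', hav'.ne, hav'.ne', Subtype.ext_iff]
        · simpa using hav.symm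
        · simpa using hav'
        · intro l hl j j' he
          fin_cases j'
          · simp at he
            have h1 : g l j = g i a := Prod.ext ((nn_three hl j).trans ha.symm) (Subtype.ext he)
            have h2 := hg (a₁ := (l, j)) (a₂ := (i, a)) h1
            simp only [Prod.mk.injEq] at h2
            rw [h2.1] at hl; omega
          · exact (g l j).2.2 he
          · simp at he
            have h1 : g l j = g i' a' := Prod.ext ((nn_three hl j).trans ha'.symm) (Subtype.ext he)
            have h2 := hg (a₁ := (l, j)) (a₂ := (i', a')) h1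
            simp only [Prod.mk.injEq] at h2
            rw [h2.1] at hl; omega
      · obtain ⟨i, hi⟩ := card_pos.1 hq
        simp only [mem_filter, mem_univ, true_and] at hi
        obtain ⟨a, hane, h1w, haw, hadj1, hadj2⟩ := nn_two hp hg hadj hi
        refine hasPaths_extend hg hadj w ![v, ((g i 1).2 : V), (g i a).2] ?_ ?_ ?_ ?_
        · have hv1 := (g i 1).2.2
          have hva := (g i a).2.2
          intro x y hxy
          fin_cases x <;> fin_cases y <;>
            simp_all [hadj2.ne, hadj2.ne', Subtype.ext_iff]
        · simpa using hadj1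
        · simpa using hadj2
        · intro l hl j j' he
          fin_cases j'
          · exact (g l j).2.2 he
          · simp at he
            have h1 : g l j = g i 1 := Prod.ext ((nn_three hl j).trans h1w.symm) (Subtype.ext he)
            have h2 := hg (a₁ := (l, j)) (a₂ := (i, 1)) h1
            simp only [Prod.mk.injEq] at h2
            rw [h2.1] at hl; omega
          · simp at he
            have h1 : g l j = g i a := Prod.ext ((nn_three hl j).trans haw.symm) (Subtype.ext he)
            have h2 := hg (a₁ := (l, j)) (a₂ := (i, a)) h1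
            simp only [Prod.mk.injEq] at h2
            rw [h2.1] at hl; omega
    have h3 := hlt _ h2
    omega

/-- the counting bound -/
theorem count_bound (hG : CubicThreeConnected G) (hp : IsPort G v H port)
    (hk : HasPaths (substGraph G v H port) k) {k₀ : ℕ} (hk₀ : 3 * k₀ ≤ Fintype.card V)
    (hno : ¬ HasPaths G k₀) :
    12 * k + Fintype.card W ≤ 4 * (Fintype.card W * (Fintype.card V - 1)) := by
  obtain ⟨g, hg, hadj⟩ := hk
  have h1 := Finset.sum_le_sum (s := (univ : Finset W))
    (fun w _ => local_ineq hG hp hg hadj hk₀ hno w)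
  simp only [sum_add_distrib, ← mul_sum, sum_const, card_univ, smul_eq_mul, mul_one] at h1
  have h2 := sum_cross hp hg hadj
  have h3 := sum_sum_nn (g := g)
  have h4 : 4 * (Fintype.card W * (Fintype.card V - 1)) =
    Fintype.card W * (4 * (Fintype.card V - 1)) := by ring
  rw [h4]
  omega

end Pool.Agent.H7.P3
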