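import Pool.Agent.H7.P3.ClaimA

/-!
The minimal cylinder: a set `C` with internal pairs that contains an induced path on four
vertices while its proper cylinders do not, contains one with loops `0110` which no vertex of
`C` sees in exactly `{a,b}`, `{a,c}`, `{b,d}` or `{c,d}`.
-/

namespace Pool.Agent.H7.P3

variable {V : Type*} {A : V → V → Prop} {C : Set V}

/-- `g` sees exactly one of the four bad sets -/
def Bad (A : V → V → Prop) (a b c d g : V) : Prop :=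
  (A g a ∧ A g b ∧ ¬ A g c ∧ ¬ A g d) ∨ (A g a ∧ A g c ∧ ¬ A g b ∧ ¬ A g d) ∨
    (A g b ∧ A g d ∧ ¬ A g a ∧ ¬ A g c) ∨ (A g c ∧ A g d ∧ ¬ A g a ∧ ¬ A g b)

/-- (1)-(5), no full vertex -/
theorem core [Finite V] (hs : ∀ x y, A x y → A y x) (hP : Pairs A C)
    (h0 : ∀ w ∈ C, (∃ x ∈ C, A w x) → (∃ x ∈ C, ¬ A w x) →
      NoP4 A {y | y ∈ C ∧ A w y} ∧ NoP4 A {y | y ∈ C ∧ ¬ A w y})
    (hex : ∃ a ∈ C, ∃ b ∈ C, ∃ c ∈ C, ∃ d ∈ C, P4 A a b c d)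
    (hfull : ∀ x ∈ C, ∃ y ∈ C, ¬ A x y) :
    ∃ a ∈ C, ∃ b ∈ C, ∃ c ∈ C, ∃ d ∈ C, P4 A a b c d ∧ ¬ A a a ∧ A b b ∧ A c c ∧ ¬ A d d ∧
      ∀ g ∈ C, ¬ Bad A a b c d g := by
  have hCA : ∀ D : Set V, Pairs A D → NoP4 A D → CA A D := fun D h1 h2 =>
    claimA hs _ D le_rfl h1 h2
  have upC : ∀ w ∈ C, ¬ A w w → (∃ y ∈ C, A w y) →
      ∃ q ∈ C, A q q ∧ A q w ∧ ∀ y ∈ C, A w y → A q y := by
    intro w hw hww hn
    exact up hs hP hw hww hn (hCA _ (hP.pos hs w) (h0 w hw hn ⟨w, hw, hww⟩).1)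
  have two : ∀ b ∈ C, ∀ c ∈ C, A b b → A c c → A b c → (∃ z ∈ C, A b z ∧ ¬ A c z) →
      ∃ a ∈ C, A b a ∧ ¬ A c a ∧ ∀ y ∈ C, A b y → ¬ A c y → ¬ A a y := by
    intro b hb c hc hbb hcc hbc ⟨z, hz, hbz, hcz⟩
    have hPD := (hP.pos hs b).neg hs c
    have hND : NoP4 A {y | y ∈ {y | y ∈ C ∧ A b y} ∧ ¬ A c y} :=
      (h0 b hb ⟨b, hb, hbb⟩ (hfull b hb)).1.mono fun y hy => hy.1
    rcases isoFull hs hPD (hCA _ hPD hND) ⟨z, ⟨hz, hbz⟩, hcz⟩ with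
      ⟨a, ⟨⟨ha, hba⟩, hca⟩, hiso⟩ | ⟨f, ⟨⟨hf, hbf⟩, hcf⟩, hful⟩
    · exact ⟨a, ha, hba, hca, fun y hy hby hcy => hiso y ⟨⟨hy, hby⟩, hcy⟩⟩
    · exfalso
      have hff : A f f := hful f ⟨⟨hf, hbf⟩, hcf⟩
      obtain ⟨g, hg, hgg, hgf, hgc, hbt⟩ := hP.one hf hc hff hcc (fun h => hcf (hs _ _ h))
      have hgb : A g b := (hbt b ⟨fun _ => hs _ _ hbc, fun _ => hs _ _ hbf⟩).2 (hs _ _ hbf)
      exact hgf (hs _ _ (hful g ⟨⟨hg, hs _ _ hgb⟩, fun h => hgc (hs _ _ h)⟩))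
  obtain ⟨p, hp, q0, hq0, r, hr, s, hs', hpath⟩ := hex
  obtain ⟨b, hb, hmax⟩ := exists_max (A := A) C C ⟨p, hp⟩
  have hbn : ∃ y ∈ C, A b y := by
    by_contra hcon
    push Not at hcon
    exact hcon q0 hq0 (hmax p hp (fun y hy h => absurd h (hcon y hy)) q0 hq0 hpath.ab)
  have hbb : A b b := by
    by_contra hbb
    obtain ⟨q, hq, hqq, hqb, hsub⟩ := upC b hb hbb hbn
    exact hbb (hmax q hq hsub b hb hqb)
  have h0b := h0 b hb ⟨b, hb, hbb⟩ (hfull b hb)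
  -- an edge leaving N(b)
  obtain ⟨y, hy, z, hz, hby, hbz, hyz⟩ :
      ∃ y ∈ C, ∃ z ∈ C, A b y ∧ ¬ A b z ∧ A y z := by
    by_contra hcon
    push Not at hcon
    by_cases hbp : A b p
    · have hbq : A b q0 := by
        by_contra h
        exact hcon p hp q0 hq0 hbp h hpath.ab
      have hbr : A b r := by
        by_contra h
        exact hcon q0 hq0 r hr hbq h hpath.bc
      have hbs : A b s := by
        by_contra h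
        exact hcon r hr s hs' hbr h hpath.cd
      exact h0b.1 p ⟨hp, hbp⟩ q0 ⟨hq0, hbq⟩ r ⟨hr, hbr⟩ s ⟨hs', hbs⟩ hpath
    · have hbq : ¬ A b q0 := fun h => hcon q0 hq0 p hp h hbp (hs _ _ hpath.ab)
      have hbr : ¬ A b r := fun h => hcon r hr q0 hq0 h hbq (hs _ _ hpath.bc)
      have hbs : ¬ A b s := fun h => hcon s hs' r hr h hbr (hs _ _ hpath.cd)
      exact h0b.2 p ⟨hp, hbp⟩ q0 ⟨hq0, hbq⟩ r ⟨hr, hbr⟩ s ⟨hs', hbs⟩ hpath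
  obtain ⟨c0, hc0, hcc0, hbc0, hc0z⟩ : ∃ c0 ∈ C, A c0 c0 ∧ A b c0 ∧ A c0 z := by
    by_cases hyy : A y y
    · exact ⟨y, hy, hyy, hby, hyz⟩
    · obtain ⟨q, hq, hqq, hqy, hsub⟩ := upC y hy hyy ⟨z, hz, hyz⟩
      exact ⟨q, hq, hqq, hs _ _ (hsub b hb (hs _ _ hby)), hsub z hz hyz⟩
  obtain ⟨d', hd', hcd', hbd', hiso'⟩ :=
    two c0 hc0 b hb hcc0 hbb (hs _ _ hbc0) ⟨z, hz, hc0z, hbz⟩
  have hdd' : ¬ A d' d' := hiso' d' hd' hcd' hbd'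
  obtain ⟨q, hq, hqq, hqd', hsubq⟩ := upC d' hd' hdd' ⟨c0, hc0, hs _ _ hcd'⟩
  have hqc0 : A q c0 := hsubq c0 hc0 (hs _ _ hcd')
  have hbq : A b q := by
    by_contra hbq
    exact hiso' q hq (hs _ _ hqc0) hbq (hs _ _ hqd')
  obtain ⟨d, hd, hdd, hbd, hdn, hsub⟩ : ∃ d ∈ C, ¬ A d d ∧ ¬ A b d ∧ (∃ y ∈ C, A d y) ∧
      ∀ y ∈ C, A d y → A b y := by
    by_cases hsub : ∀ y ∈ C, A d' y → A b y
    · exact ⟨d', hd', hdd', hbd', ⟨c0, hc0, hs _ _ hcd'⟩, hsub⟩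
    · push Not at hsub
      obtain ⟨v, hv, hdv, hbv⟩ := hsub
      obtain ⟨f, ⟨hf, hbf⟩, hff, hfd', hcl⟩ := hCA _ (hP.neg hs b) h0b.2 d' ⟨hd', hbd'⟩
        ⟨v, ⟨hv, hbv⟩, hdv⟩
      obtain ⟨g, hg, hgg, hgf, hgb, hbt⟩ := hP.one hf hb hff hbb (fun h => hbf (hs _ _ h))
      have hqf : A q f := hsubq f hf (hs _ _ hfd')
      refine ⟨g, hg, hgg, fun h => hgb (hs _ _ h),
        ⟨q, hq, (hbt q ⟨fun _ => hbq, fun _ => hs _ _ hqf⟩).2 (hs _ _ hqf)⟩, ?_⟩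
      intro u hu hgu
      by_contra hbu
      have hfu : A f u := by
        by_contra hfu
        exact hfu ((hbt u ⟨fun h => absurd h hfu, fun h => absurd h hbu⟩).1 hgu)
      exact hgf (hs _ _ (hcl u ⟨hu, hbu⟩ g ⟨hg, fun h => hgb (hs _ _ h)⟩ hfu (hs _ _ hgu)))
  -- (4)
  obtain ⟨c, hc, hcc, hcd, hsubc⟩ := upC d hd hdd hdn
  have hbc : A b c := hsub c hc (hs _ _ hcd)
  have hbn2 : ∃ z ∈ C, A b z ∧ ¬ A c z := by
    by_contra hcon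
    push Not at hcon
    exact hbd (hmax c hc hcon d hd hcd)
  obtain ⟨a, ha, hba, hca, hiso⟩ := two b hb c hc hbb hcc hbc hbn2
  have haa : ¬ A a a := hiso a ha hba hca
  have had : ¬ A a d := fun h => hca (hsubc a ha (hs _ _ h))
  refine ⟨a, ha, b, hb, c, hc, d, hd,
    ⟨hs _ _ hba, hbc, hcd, fun h => hca (hs _ _ h), hbd, had⟩, haa, hbb, hcc, hdd, ?_⟩
  -- (5)
  rintro g hg (⟨h1, h2, h3, h4⟩ | ⟨h1, h2, h3, h4⟩ | ⟨h1, h2, h3, h4⟩ | ⟨h1, h2, h3, h4⟩)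
  · exact hiso g hg (hs _ _ h2) (fun h => h3 (hs _ _ h)) (hs _ _ h1)
  · have hda : ¬ A d a := fun h => had (hs _ _ h)
    have hdb : ¬ A d b := fun h => hbd (hs _ _ h)
    have hdg : ¬ A d g := fun h => h4 (hs _ _ h)
    obtain ⟨f, ⟨hf, hdf⟩, hff, hfa, hcl⟩ := hCA _ (hP.neg hs d)
      (h0 d hd hdn ⟨d, hd, hdd⟩).2 a ⟨ha, hda⟩ ⟨b, ⟨hb, hdb⟩, hs _ _ hba⟩
    have hfb : A f b := hcl a ⟨ha, hda⟩ b ⟨hb, hdb⟩ hfa (hs _ _ hba)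
    have hfg : A f g := hcl a ⟨ha, hda⟩ g ⟨hg, hdg⟩ hfa (hs _ _ h1)
    have hfc : A c f := by
      by_contra hcf
      exact hiso f hf (hs _ _ hfb) hcf (hs _ _ hfa)
    obtain ⟨v, hv, hdv, hfv⟩ : ∃ v ∈ C, A d v ∧ ¬ A f v := by
      by_contra hcon
      push Not at hcon
      refine h3 (hs _ _ (hmax f hf (fun y hy hby => ?_) g hg hfg))
      by_cases hdy : A d y
      · exact hcon y hy hdy
      · exact hcl b ⟨hb, hdb⟩ y ⟨hy, hdy⟩ hfb hby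
    have hbv := hsub v hv hdv
    have hcv := hsubc v hv hdv
    exact (h0 c hc ⟨d, hd, hcd⟩ ⟨a, ha, hca⟩).1 f ⟨hf, hfc⟩ b ⟨hb, hs _ _ hbc⟩ v ⟨hv, hcv⟩ d
      ⟨hd, hcd⟩ ⟨hfb, hbv, hs _ _ hdv, hfv, hbd, fun h => hdf (hs _ _ h)⟩
  · exact h4 (hs _ _ (hsubc g hg (hs _ _ h2)))
  · exact h4 (hs _ _ (hsub g hg (hs _ _ h2)))

/-- (1)-(5) -/
theorem core2 [Finite V] (hs : ∀ x y, A x y → A y x) (hP : Pairs A C)
    (h0 : ∀ w ∈ C, (∃ x ∈ C, A w x) → (∃ x ∈ C, ¬ A w x) →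
      NoP4 A {y | y ∈ C ∧ A w y} ∧ NoP4 A {y | y ∈ C ∧ ¬ A w y})
    (hex : ∃ a ∈ C, ∃ b ∈ C, ∃ c ∈ C, ∃ d ∈ C, P4 A a b c d) :
    ∃ a ∈ C, ∃ b ∈ C, ∃ c ∈ C, ∃ d ∈ C, P4 A a b c d ∧ ¬ A a a ∧ A b b ∧ A c c ∧ ¬ A d d ∧
      ∀ g ∈ C, ¬ Bad A a b c d g := by
  by_cases hfull : ∀ x ∈ C, ∃ y ∈ C, ¬ A x y
  · exact core hs hP h0 hex hfull
  push Not at hfull
  obtain ⟨x, hx, hxf⟩ := hfull
  have flip : ∀ p q r s, P4 (fun x y => ¬ A x y) p q r s → P4 A r p s q := by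
    rintro p q r s ⟨h1, h2, h3, h4, h5, h6⟩
    exact ⟨hs _ _ (not_not.1 h4), not_not.1 h6, hs _ _ (not_not.1 h5), h3,
      h1, fun h => h2 (hs _ _ h)⟩
  have hs' : ∀ x y, (fun x y => ¬ A x y) x y → (fun x y => ¬ A x y) y x :=
    fun x y h h' => h (hs _ _ h')
  have hP' : Pairs (fun x y => ¬ A x y) C := by
    intro u hu v hv h1 h2
    obtain ⟨g, hg, h3, h4, h5, h6⟩ := hP u hu v hv (by tauto) (by tauto)
    exact ⟨g, hg, by tauto, by tauto, by tauto, fun x hx => not_congr (h6 x (by tauto))⟩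
  have hN' : ∀ D : Set V, NoP4 A D → NoP4 (fun x y => ¬ A x y) D := by
    intro D hD p hp q hq r hr s hs2 h
    exact hD r hr p hp s hs2 q hq (flip p q r s h)
  have h0' : ∀ w ∈ C, (∃ x ∈ C, (fun x y => ¬ A x y) w x) →
      (∃ x ∈ C, ¬ (fun x y => ¬ A x y) w x) →
      NoP4 (fun x y => ¬ A x y) {y | y ∈ C ∧ (fun x y => ¬ A x y) w y} ∧
        NoP4 (fun x y => ¬ A x y) {y | y ∈ C ∧ ¬ (fun x y => ¬ A x y) w y} := by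
    rintro w hw ⟨x1, hx1, h1⟩ ⟨x2, hx2, h2⟩
    have := h0 w hw ⟨x2, hx2, not_not.1 h2⟩ ⟨x1, hx1, h1⟩
    refine ⟨hN' _ this.2, hN' _ (this.1.mono ?_)⟩
    rintro y ⟨hy, h⟩
    exact ⟨hy, not_not.1 h⟩
  have hex' : ∃ a ∈ C, ∃ b ∈ C, ∃ c ∈ C, ∃ d ∈ C, P4 (fun x y => ¬ A x y) a b c d := by
    obtain ⟨a, ha, b, hb, c, hc, d, hd, h1, h2, h3, h4, h5, h6⟩ := hex
    exact ⟨c, hc, a, ha, d, hd, b, hb, fun h => h4 (hs _ _ h), h6, fun h => h5 (hs _ _ h),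
      not_not.2 h3, not_not.2 h1, not_not.2 (hs _ _ h2)⟩
  obtain ⟨a, ha, b, hb, c, hc, d, hd, h1, h2, h3, h4, h5, h6⟩ := core hs' hP' h0' hex'
    (fun y hy => ⟨x, hx, not_not.2 (hs _ _ (hxf y hy))⟩)
  refine ⟨c, hc, a, ha, d, hd, b, hb, flip _ _ _ _ h1, h4, not_not.1 h2, not_not.1 h5, h3, ?_⟩
  intro g hg hbad
  refine h6 g hg ?_
  unfold Bad at hbad ⊢
  tauto

/-- every vertex which agrees with four vertices of `C` wherever these agree lies in `C` -/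
def Agr (A : V → V → Prop) (C : Set V) : Prop :=
  ∀ a ∈ C, ∀ b ∈ C, ∀ c ∈ C, ∀ d ∈ C, ∀ w,
    (∀ y, (A a y ↔ A b y) → (A b y ↔ A c y) → (A c y ↔ A d y) → (A w y ↔ A a y)) → w ∈ C

theorem p3_aux [Finite V] (hs : ∀ x y, A x y → A y x) :
    ∀ (n : ℕ) (C : Set V), C.ncard ≤ n → Pairs A C → Agr A C →
      (∃ a ∈ C, ∃ b ∈ C, ∃ c ∈ C, ∃ d ∈ C, P4 A a b c d) →
    ∃ a b c d, P4 A a b c d ∧ ¬ A a a ∧ A b b ∧ A c c ∧ ¬ A d d ∧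
      ∀ w, (∀ y, (A a y ↔ A b y) → (A b y ↔ A c y) → (A c y ↔ A d y) → (A w y ↔ A a y)) →
        ¬ Bad A a b c d w := by
  intro n
  induction n with
  | zero =>
    rintro C hC _ _ ⟨a, ha, _⟩
    have : C = ∅ := by
      have h0 : C.ncard = 0 := Nat.le_zero.1 hC
      rwa [Set.ncard_eq_zero (Set.toFinite C)] at h0
    rw [this] at ha
    exact absurd ha (Set.notMem_empty a)
  | succ n ih =>
    intro C hC hP hA hex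
    have small : ∀ E : Set V, E ⊆ C → ∀ t ∈ C, t ∉ E → E.ncard ≤ n := by
      intro E hE t ht htE
      have : E ⊂ C := ⟨hE, fun h => htE (h ht)⟩
      have := Set.ncard_lt_ncard this (Set.toFinite C)
      omega
    have hs2 : ∀ x y, A x y ↔ A y x := fun x y => ⟨hs _ _, hs _ _⟩
    by_cases h0 : ∀ w ∈ C, (∃ x ∈ C, A w x) → (∃ x ∈ C, ¬ A w x) →
      NoP4 A {y | y ∈ C ∧ A w y} ∧ NoP4 A {y | y ∈ C ∧ ¬ A w y}
    · obtain ⟨a, ha, b, hb, c, hc, d, hd, h1, h2, h3, h4, h5, h6⟩ := core2 hs hP h0 hex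
      exact ⟨a, b, c, d, h1, h2, h3, h4, h5, fun w hw => h6 w (hA a ha b hb c hc d hd w hw)⟩
    · push Not at h0
      obtain ⟨w, hw, ⟨x1, hx1, hwx1⟩, ⟨x2, hx2, hwx2⟩, h0⟩ := h0
      by_cases hN : NoP4 A {y | y ∈ C ∧ A w y}
      · have h1 := h0 hN
        unfold NoP4 at h1
        push Not at h1
        obtain ⟨a, ha, b, hb, c, hc, d, hd, h1⟩ := h1
        refine ih {y | y ∈ C ∧ ¬ A w y} (small _ (fun y hy => hy.1) x1 hx1 (fun h => h.2 hwx1))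
          (hP.neg hs w) ?_ ⟨a, ha, b, hb, c, hc, d, hd, h1⟩
        rintro a ⟨ha, ha'⟩ b ⟨hb, hb'⟩ c ⟨hc, hc'⟩ d ⟨hd, hd'⟩ v hv
        refine ⟨hA a ha b hb c hc d hd v hv, ?_⟩
        rw [hs2] at ha' hb' hc' hd' ⊢
        rw [hv w (by tauto) (by tauto) (by tauto)]
        exact ha'
      · unfold NoP4 at hN
        push Not at hN
        obtain ⟨a, ha, b, hb, c, hc, d, hd, h1⟩ := hN
        refine ih {y | y ∈ C ∧ A w y} (small _ (fun y hy => hy.1) x2 hx2 (fun h => hwx2 h.2))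
          (hP.pos hs w) ?_ ⟨a, ha, b, hb, c, hc, d, hd, h1⟩
        rintro a ⟨ha, ha'⟩ b ⟨hb, hb'⟩ c ⟨hc, hc'⟩ d ⟨hd, hd'⟩ v hv
        refine ⟨hA a ha b hb c hc d hd v hv, ?_⟩
        rw [hs2] at ha' hb' hc' hd' ⊢
        rw [hv w (by tauto) (by tauto) (by tauto)]
        exact ha'

/-- P3' for a symmetric relation with loops -/
theorem p3 [Finite V] (hs : ∀ x y, A x y → A y x) (hP : Pairs A Set.univ)
    (hex : ∃ a b c d, P4 A a b c d) :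
    ∃ a b c d, P4 A a b c d ∧ ¬ A a a ∧ A b b ∧ A c c ∧ ¬ A d d ∧
      ∀ w, (∀ y, (A a y ↔ A b y) → (A b y ↔ A c y) → (A c y ↔ A d y) → (A w y ↔ A a y)) →
        ¬ Bad A a b c d w := by
  obtain ⟨a, b, c, d, h⟩ := hex
  exact p3_aux hs _ Set.univ le_rfl hP (fun _ _ _ _ _ _ _ _ w _ => Set.mem_univ w)
    ⟨a, Set.mem_univ a, b, Set.mem_univ b, c, Set.mem_univ c, d, Set.mem_univ d, h⟩

/-- P3' for a symmetric 0/1 matrix, diagonal = loops -/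
theorem p3_matrix [Finite V] (M : V → V → ZMod 2) (hs : ∀ x y, M x y = M y x)
    (hP : ∀ u v, M u u = M v v → M u v ≠ M u u →
      ∃ g, M g g ≠ M u u ∧ M g u = M g g ∧ M g v = M g g ∧ ∀ x, M u x = M v x → M g x = M u x)
    (hex : ∃ a b c d, M a b = 1 ∧ M b c = 1 ∧ M c d = 1 ∧ M a c = 0 ∧ M a d = 0 ∧ M b d = 0) :
    ∃ a b c d, (M a b = 1 ∧ M b c = 1 ∧ M c d = 1 ∧ M a c = 0 ∧ M a d = 0 ∧ M b d = 0) ∧
      M a a = 0 ∧ M b b = 1 ∧ M c c = 1 ∧ M d d = 0 ∧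
      ∀ w, (∀ y, M a y = M b y → M b y = M c y → M c y = M d y → M w y = M a y) →
        ¬ (M w a = 1 ∧ M w b = 1 ∧ M w c = 0 ∧ M w d = 0) ∧
        ¬ (M w a = 1 ∧ M w c = 1 ∧ M w b = 0 ∧ M w d = 0) ∧
        ¬ (M w b = 1 ∧ M w d = 1 ∧ M w a = 0 ∧ M w c = 0) ∧
        ¬ (M w c = 1 ∧ M w d = 1 ∧ M w a = 0 ∧ M w b = 0) := by
  have h01 : ∀ x y, M x y = 0 ↔ ¬ M x y = 1 := by
    intro x y
    generalize M x y = t
    revert t; decide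
  have heq : ∀ x y u v, M x y = M u v ↔ (M x y = 1 ↔ M u v = 1) := by
    intro x y u v
    generalize M x y = s
    generalize M u v = t
    revert s t; decide
  have hP' : Pairs (fun x y => M x y = 1) Set.univ := by
    intro u _ v _ h1 h2
    obtain ⟨g, h3, h4, h5, h6⟩ := hP u v ((heq _ _ _ _).2 h1) (fun h => h2 ((heq _ _ _ _).1 h))
    exact ⟨g, Set.mem_univ g, fun h => h3 ((heq _ _ _ _).2 h), (heq _ _ _ _).1 h4,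
      (heq _ _ _ _).1 h5, fun x hx => (heq _ _ _ _).1 (h6 x ((heq _ _ _ _).2 hx))⟩
  obtain ⟨a, b, c, d, h1, h2, h3, h4, h5, h6⟩ := hex
  obtain ⟨a, b, c, d, ⟨k1, k2, k3, k4, k5, k6⟩, l1, l2, l3, l4, l5⟩ :=
    p3 (A := fun x y => M x y = 1) (fun x y h => by rw [hs]; exact h) hP'
      ⟨a, b, c, d, h1, h2, h3, (h01 _ _).1 h4, (h01 _ _).1 h6, (h01 _ _).1 h5⟩
  refine ⟨a, b, c, d, ⟨k1, k2, k3, (h01 _ _).2 k4, (h01 _ _).2 k6, (h01 _ _).2 k5⟩,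
    (h01 _ _).2 l1, l2, l3, (h01 _ _).2 l4, fun w hw => ?_⟩
  have l6 := l5 w (fun y m1 m2 m3 => (heq _ _ _ _).1 (hw y ((heq _ _ _ _).2 m1)
    ((heq _ _ _ _).2 m2) ((heq _ _ _ _).2 m3)))
  unfold Bad at l6
  simp only [h01]
  tauto

end Pool.Agent.H7.P3
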