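import Pool.Agent.H7.P3.Defs

/-!
The prism over a cycle of length `m ≥ 3` is a cubic 3-connected graph of order `2 m`.
-/

namespace Pool.Agent.H7.P3

/-- the prism over the cycle of length `m` -/
def prism (m : ℕ) : SimpleGraph (ZMod m × Bool) where
  Adj a b := (a.2 = b.2 ∧ (b.1 = a.1 + 1 ∨ a.1 = b.1 + 1) ∧ a.1 ≠ b.1) ∨ (a.1 = b.1 ∧ a.2 ≠ b.2)
  symm := ⟨by
    rintro a b (⟨h1, h2, h3⟩ | ⟨h1, h2⟩)
    · exact Or.inl ⟨h1.symm, h2.symm, h3.symm⟩
    · exact Or.inr ⟨h1.symm, h2.symm⟩⟩
  loopless := ⟨by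
    rintro a (⟨_, _, h3⟩ | ⟨_, h2⟩)
    · exact h3 rfl
    · exact h2 rfl⟩

variable {m : ℕ}

lemma one_ne_zero_zmod (hm : 3 ≤ m) : (1 : ZMod m) ≠ 0 := by
  have : Fact (1 < m) := ⟨by omega⟩
  exact one_ne_zero

lemma two_ne_zero_zmod (hm : 3 ≤ m) : (2 : ZMod m) ≠ 0 := by
  intro h
  have h2 : ((2 : ℕ) : ZMod m) = 0 := by exact_mod_cast h
  rw [ZMod.natCast_eq_zero_iff] at h2
  have := Nat.le_of_dvd (by norm_num) h2
  omega

lemma prism_adj_succ (hm : 3 ≤ m) (i : ZMod m) (b : Bool) : (prism m).Adj (i, b) (i + 1, b) := by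
  refine Or.inl ⟨rfl, Or.inl rfl, ?_⟩
  intro h
  exact one_ne_zero_zmod hm (by simpa using h)

lemma prism_cubic (hm : 3 ≤ m) (a : ZMod m × Bool) : ((prism m).neighborSet a).ncard = 3 := by
  have h1 := one_ne_zero_zmod hm
  have h2 := two_ne_zero_zmod hm
  obtain ⟨i, b⟩ := a
  have hset : (prism m).neighborSet (i, b) = {(i + 1, b), (i - 1, b), (i, !b)} := by
    ext ⟨j, c⟩
    simp only [SimpleGraph.mem_neighborSet, prism, Set.mem_insert_iff, Set.mem_singleton_iff,
      Prod.mk.injEq]
    constructor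
    · rintro (⟨h, h' | h', _⟩ | ⟨h, h'⟩)
      · left; exact ⟨h', h.symm⟩
      · right; left; exact ⟨by rw [h']; ring, h.symm⟩
      · right; right
        refine ⟨h.symm, ?_⟩
        cases b <;> cases c <;> simp_all
    · rintro (⟨h, h'⟩ | ⟨h, h'⟩ | ⟨h, h'⟩)
      · left
        refine ⟨h'.symm, Or.inl h, ?_⟩
        intro hc
        rw [← hc] at h
        exact h1 (by simpa using h)
      · left
        refine ⟨h'.symm, Or.inr (by rw [h]; ring), ?_⟩
        intro hc
        rw [← hc] at h
        exact h1 (by simpa [sub_eq_self] using h.symm)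
      · right
        refine ⟨h.symm, ?_⟩
        rw [h']
        cases b <;> simp
  rw [hset, Set.ncard_insert_of_notMem, Set.ncard_pair]
  · intro h
    have := congrArg Prod.snd h
    cases b <;> simp at this
  · simp only [Set.mem_insert_iff, Set.mem_singleton_iff, Prod.mk.injEq, not_or, not_and]
    constructor
    · intro h
      exfalso
      apply h2
      have : i + 1 - (i - 1) = 0 := by rw [h]; ring
      calc (2 : ZMod m) = i + 1 - (i - 1) := by ring
        _ = 0 := this
    · intro h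
      exact absurd (by simpa using h) h1

/-- a row with at most one deleted vertex -/
lemma prism_row (hm : 3 ≤ m) {S : Set (ZMod m × Bool)} (b : Bool) (s : ZMod m)
    (hS : ∀ i, i ≠ s → (i, b) ∉ S) (i : ZMod m) (hi : i ≠ s) :
    ((prism m).induce Sᶜ).Reachable
      ⟨(s + 1, b), hS _ (fun h => one_ne_zero_zmod hm (by simpa using h))⟩ ⟨(i, b), hS i hi⟩ := by
  have : NeZero m := ⟨by omega⟩
  have key : ∀ t : ℕ, t + 1 < m → ∀ j (hj : j = s + 1 + (t : ZMod m)) (hjs : j ≠ s),
      ((prism m).induce Sᶜ).Reachable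
      ⟨(s + 1, b), hS _ (fun h => one_ne_zero_zmod hm (by simpa using h))⟩ ⟨(j, b), hS j hjs⟩ := by
    intro t
    induction t with
    | zero =>
      intro _ j hj hjs
      have : j = s + 1 := by simpa using hj
      subst this
      exact SimpleGraph.Reachable.refl _
    | succ t ih =>
      intro ht j hj hjs
      have hne : s + 1 + (t : ZMod m) ≠ s := by
        intro h
        have h1 : ((t + 1 : ℕ) : ZMod m) = 0 := by
          push_cast
          have : s + 1 + (t : ZMod m) - s = 0 := by rw [h]; ring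
          calc (t : ZMod m) + 1 = s + 1 + (t : ZMod m) - s := by ring
            _ = 0 := this
        rw [ZMod.natCast_eq_zero_iff] at h1
        have := Nat.le_of_dvd (by omega) h1
        omega
      refine (ih (by omega) _ rfl hne).trans ?_
      have hj' : j = s + 1 + (t : ZMod m) + 1 := by rw [hj]; push_cast; ring
      subst hj'
      have hadj : ((prism m).induce Sᶜ).Adj ⟨(s + 1 + (t : ZMod m), b), hS _ hne⟩
          ⟨(s + 1 + (t : ZMod m) + 1, b), hS _ hjs⟩ := prism_adj_succ hm _ b
      exact hadj.reachable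
  have hval : ((i - s - 1).val : ZMod m) = i - s - 1 := ZMod.natCast_zmod_val _
  refine key (i - s - 1).val ?_ i (by rw [hval]; ring) hi
  have hlt := ZMod.val_lt (i - s - 1)
  rcases Nat.lt_or_ge ((i - s - 1).val + 1) m with h | h
  · exact h
  · exfalso
    have he : (i - s - 1).val + 1 = m := by omega
    have : (((i - s - 1).val + 1 : ℕ) : ZMod m) = 0 := by rw [he]; simp
    push_cast at this
    rw [hval] at this
    apply hi
    have h3 : i - s = 0 := by
      calc i - s = i - s - 1 + 1 := by ring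
        _ = 0 := this
    exact sub_eq_zero.1 h3

/-- in a row with at most one deleted vertex everything is reachable -/
lemma prism_row' (hm : 3 ≤ m) {S : Set (ZMod m × Bool)} (b : Bool)
    (hb : {i | (i, b) ∈ S}.ncard ≤ 1) (i j : ZMod m) (hi : (i, b) ∉ S) (hj : (j, b) ∉ S) :
    ((prism m).induce Sᶜ).Reachable ⟨(i, b), hi⟩ ⟨(j, b), hj⟩ := by
  classical
  have : NeZero m := ⟨by omega⟩
  obtain ⟨s, hs, hsi, hsj⟩ : ∃ s, (∀ l, l ≠ s → (l, b) ∉ S) ∧ i ≠ s ∧ j ≠ s := by
    by_cases hne : ({i | (i, b) ∈ S} : Set (ZMod m)).Nonempty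
    · obtain ⟨s, hs⟩ := hne
      refine ⟨s, ?_, ?_, ?_⟩
      · intro l hl hmem
        rw [Set.ncard_le_one (Set.toFinite _)] at hb
        exact hl (hb l hmem s hs)
      · rintro rfl; exact hi hs
      · rintro rfl; exact hj hs
    · rw [Set.not_nonempty_iff_eq_empty] at hne
      have hno : ∀ l, (l, b) ∉ S := by
        intro l hl
        have : l ∈ ({i | (i, b) ∈ S} : Set (ZMod m)) := hl
        rw [hne] at this
        exact this
      obtain ⟨s, hs⟩ : ∃ s, s ∉ ({i, j} : Finset (ZMod m)) := by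
        by_contra hcon
        push Not at hcon
        have h1 : (Finset.univ : Finset (ZMod m)) ⊆ {i, j} := fun x _ => hcon x
        have h2 := Finset.card_le_card h1
        rw [Finset.card_univ, ZMod.card] at h2
        have h3 : ({i, j} : Finset (ZMod m)).card ≤ 2 := Finset.card_le_two
        omega
      simp only [Finset.mem_insert, Finset.mem_singleton, not_or] at hs
      exact ⟨s, fun l _ => hno l, Ne.symm hs.1, Ne.symm hs.2⟩
  exact (prism_row hm b s hs i hsi).symm.trans (prism_row hm b s hs j hsj)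

theorem prism_conn (hm : 3 ≤ m) (S : Set (ZMod m × Bool)) (hS : S.ncard ≤ 2) :
    ((prism m).induce Sᶜ).Connected := by
  classical
  have : NeZero m := ⟨by omega⟩
  have hSfin : S.Finite := Set.toFinite S
  -- a rung without deleted vertices
  obtain ⟨i₀, hi₀⟩ : ∃ i₀, ∀ b, (i₀, b) ∉ S := by
    by_contra hcon
    push Not at hcon
    have h1 : (Prod.fst '' S) = Set.univ := by
      refine Set.eq_univ_of_forall fun i => ?_
      obtain ⟨b, hb⟩ := hcon i
      exact ⟨(i, b), hb, rfl⟩
    have h2 : (Prod.fst '' S).ncard ≤ 2 := (Set.ncard_image_le hSfin).trans hS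
    rw [h1, Set.ncard_univ, Nat.card_eq_fintype_card, ZMod.card] at h2
    omega
  have hrung : ∀ (i : ZMod m) (b : Bool) (h1 : (i, b) ∉ S) (h2 : (i, !b) ∉ S),
      ((prism m).induce Sᶜ).Reachable ⟨(i, b), h1⟩ ⟨(i, !b), h2⟩ := by
    intro i b h1 h2
    have hadj : ((prism m).induce Sᶜ).Adj ⟨(i, b), h1⟩ ⟨(i, !b), h2⟩ := by
      refine Or.inr ⟨rfl, ?_⟩
      cases b <;> simp
    exact hadj.reachable
  have hbase : ∀ (b : Bool), ((prism m).induce Sᶜ).Reachable ⟨(i₀, b), hi₀ b⟩
      ⟨(i₀, false), hi₀ false⟩ := by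
    intro b
    cases b
    · exact SimpleGraph.Reachable.refl _
    · exact hrung i₀ true (hi₀ _) (hi₀ _)
  have hall : ∀ a : (Sᶜ : Set (ZMod m × Bool)), ((prism m).induce Sᶜ).Reachable a
      ⟨(i₀, false), hi₀ false⟩ := by
    rintro ⟨⟨i, b⟩, hib⟩
    by_cases hb : {i | (i, b) ∈ S}.ncard ≤ 1
    · exact (prism_row' hm b hb i i₀ hib (hi₀ b)).trans (hbase b)
    · -- two deleted vertices in the row `b`
      have hno : ∀ l, (l, !b) ∉ S := by
        intro l hl
        have hsub : insert (l, !b) ((fun i => (i, b)) '' {i | (i, b) ∈ S}) ⊆ S := by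
          intro x hx
          rcases hx with rfl | ⟨j, hj, rfl⟩
          · exact hl
          · exact hj
        have h1 := Set.ncard_le_ncard hsub hSfin
        rw [Set.ncard_insert_of_notMem _ (Set.toFinite _), Set.InjOn.ncard_image] at h1
        · omega
        · intro x _ y _ hxy
          simpa using hxy
        · rintro ⟨j, _, hj⟩
          have := congrArg Prod.snd hj
          cases b <;> simp at this
      have hb' : {i | (i, !b) ∈ S}.ncard ≤ 1 := by
        have : {i | (i, !b) ∈ S} = (∅ : Set (ZMod m)) := by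
          ext l
          simp only [Set.mem_empty_iff_false, iff_false]
          exact hno l
        rw [this]
        simp
      exact ((hrung i b hib (hno i)).trans (prism_row' hm _ hb' i i₀ (hno i) (hi₀ _))).trans
        (hbase _)
  have : Nonempty (Sᶜ : Set (ZMod m × Bool)) := ⟨⟨(i₀, false), hi₀ false⟩⟩
  exact ⟨fun a b => (hall a).trans (hall b).symm⟩

lemma card_prism (hm : 3 ≤ m) : Nat.card (ZMod m × Bool) = 2 * m := by
  have : NeZero m := ⟨by omega⟩
  rw [Nat.card_prod, Nat.card_eq_fintype_card, Nat.card_eq_fintype_card, ZMod.card]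
  simp [mul_comm]

theorem prism_good (hm : 3 ≤ m) : CubicThreeConnected (prism m) := by
  have : NeZero m := ⟨by omega⟩
  refine ⟨inferInstance, prism_cubic hm, ?_, prism_conn hm⟩
  rw [card_prism hm]
  omega

end Pool.Agent.H7.P3
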